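import Pool.Agent.H.MP_4ac5ef_an.A

namespace Pool.Agent.Results.MP_4ac5ef_an.Yes

open MeasureTheory Filter Topology ComplexConjugate Pool.Agent.H
open MP_e9aa5f_an MP_496271_an MP_4ac5ef_an

/-- normalised Haar measure of the circle -/
noncomputable abbrev m : Measure UnitAddCircle := AddCircle.haarAddCircle

noncomputable abbrev Linf := Lp ℂ ⊤ m

/-- all negative Fourier coefficients vanish -/
def Anal (f : Linf) : Prop := ∀ k < 0, fourierCoeff f k = 0

/-- the Hardy space of bounded functions -/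
noncomputable def Hinf : Submodule ℂ Linf := Submodule.span ℂ {f | Anal f}

lemma anal {f : Linf} (h : f ∈ Hinf) : Anal f := by
  induction h using Submodule.span_induction with
  | mem _ h => exact h
  | zero => intro k _; rw [fourierCoeff_congr_ae (Lp.coeFn_zero ℂ ⊤ m)]; simp [fourierCoeff]
  | add f g _ _ hf hg =>
    intro k hk
    rw [fourierCoeff_congr_ae (Lp.coeFn_add f g)]
    exact (fc_add ((Lp.memLp f).integrable le_top) ((Lp.memLp g).integrable le_top) k).trans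
      (by rw [hf k hk, hg k hk, add_zero])
  | smul c f _ hf =>
    intro k hk
    rw [fourierCoeff_congr_ae (Lp.coeFn_smul c f), fourierCoeff.const_smul, hf k hk, smul_zero]

section
variable {E : Type} [NormedAddCommGroup E] [NormedSpace ℂ E]

/-- common kernel of finitely many functionals -/
def Ker (Φ : Finset (StrongDual ℂ E)) : Submodule ℂ E := ⨅ φ ∈ Φ, φ.ker

/-- exposed point of the closed unit ball -/
def Exposed (x : E) : Prop := ∃ φ : StrongDual ℂ E, ‖φ‖ = 1 ∧ {y | ‖y‖ ≤ 1 ∧ φ y = 1} = {x}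

/-- in every common kernel of finitely many functionals, the exposed points of the unit ball are
the unit vectors with property `P` -/
def Desc (P : E → Prop) : Prop :=
  ∀ (Φ : Finset (StrongDual ℂ E)) (f : Ker Φ), Exposed f ↔ ‖f‖ = 1 ∧ P f

/-- the same inside a subspace -/
def DescIn (S : Submodule ℂ E) (P : E → Prop) : Prop := Desc fun f : S => P f

lemma ple {ψ : StrongDual ℂ E} (h : ‖ψ‖ = 1) (y : E) : ‖ψ y‖ ≤ ‖y‖ := by
  simpa [h] using ψ.le_opNorm y

lemma expo {F : Type} [NormedAddCommGroup F] [NormedSpace ℂ F] (S : Submodule ℂ F)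
    (S' : Submodule ℂ S) {ψ : StrongDual ℂ F} (h : ‖ψ‖ ≤ 1) {x : S'} (h1 : ‖x‖ = 1)
    (h2 : ψ x.1.1 = 1) (h3 : ∀ y : S', ‖y‖ ≤ 1 → ψ y.1.1 = 1 → y = x) : Exposed x := by
  refine ⟨ψ ∘L (S.subtypeL ∘L S'.subtypeL), le_antisymm
    (ContinuousLinearMap.opNorm_le_bound _ zero_le_one fun y => ψ.le_of_opNorm_le h _) ?_,
    Set.eq_singleton_iff_unique_mem.2 ⟨⟨h1.le, h2⟩, fun y hy => h3 y hy.1 hy.2⟩⟩
  simpa [h1, h2] using (ψ ∘L (S.subtypeL ∘L S'.subtypeL)).le_opNorm x

end

/-- the set where `|f| = 1` has positive measure -/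
def Big (f : Linf) : Prop := 0 < m {t | ‖f t‖ = 1}

lemma bd (f : Linf) : Bd f ‖f‖ := Lp.norm_def f ▸ bd_top (Lp.aestronglyMeasurable f) (Lp.memLp f).2

lemma hh (f : Hinf) : HH f.1 := ⟨_, bd f.1, anal f.2⟩

lemma nle {f : Linf} {C : ℝ} (h0 : 0 ≤ C) (h : ∀ᵐ t ∂m, ‖f t‖ ≤ C) : ‖f‖ ≤ C := by
  simpa using Lp.norm_le_of_ae_bound h0 h

lemma lift {g : UnitAddCircle → ℂ} (h : HH g) : ∃ x : Hinf, x.1 =ᵐ[m] g := by
  obtain ⟨B, h1, h2⟩ := h
  have := memLp_top_of_bound h1.1 B h1.2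
  exact ⟨⟨this.toLp g, Submodule.subset_span fun k hk => by
    rw [fourierCoeff_congr_ae this.coeFn_toLp, h2 k hk]⟩, this.coeFn_toLp⟩

lemma alg {a b : ℂ} (h1 : ‖a‖ ≤ 1) (h2 : b * conj b = 1) (h3 : 1 - (a * conj b).re = 0) :
    a - b = 0 := by
  have d := congrArg Complex.re h2
  rw [← sq_le_one_iff₀ (norm_nonneg _), Complex.sq_norm, Complex.normSq_apply] at h1
  rw [← Complex.normSq_eq_zero, Complex.normSq_apply]
  simp at h3 d ⊢
  nlinarith [mul_self_nonneg (a.re - b.re), mul_self_nonneg (a.im - b.im)]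

lemma main (Φ : Finset (StrongDual ℂ Hinf)) (f : Ker Φ) :
    Exposed f ↔ ‖f‖ = 1 ∧ Big f.1.1 := by
  constructor
  · rintro ⟨ψ, h1, h2⟩
    obtain ⟨h3, h4⟩ : ‖f‖ ≤ 1 ∧ ψ f = 1 := h2.ge rfl
    have le := ple (E := Ker Φ) h1
    have nle : ∀ {y : Ker Φ} {C : ℝ}, 0 ≤ C → (∀ᵐ t ∂m, ‖y.1.1 t‖ ≤ C) → ‖y‖ ≤ C := nle
    have h5 : ‖f‖ = 1 := le_antisymm h3 (by have := le f; rwa [h4, norm_one] at this)
    refine ⟨h5, pos_iff_ne_zero.2 fun h0 => ?_⟩
    have hf : Bd f.1.1 1 := (bd f.1.1).mono h5.le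
    obtain ⟨b, b1, b2⟩ := key hf h0 (Φ.card + 1)
    choose x hx using fun j => lift (HH.mul (hh f.1) ⟨_, b1 j⟩)
    obtain ⟨c, c1, c2⟩ := Fintype.not_linearIndependent_iff.1 fun h : LinearIndependent ℂ
      fun j (φ : Φ) => φ.1 (x j) => by simpa using h.fintype_card_le_finrank
    obtain ⟨a, a0, a1, a2, δ, d1, d2⟩ := b2 c (Function.ne_iff.2 c2)
    obtain ⟨g, hg⟩ : ∃ g : Ker Φ, g.1 = ∑ j, c j • x j := ⟨⟨∑ j, c j • x j, by
      simp only [Ker, Submodule.mem_iInf]
      exact fun φ h => by simpa using congrFun c1 ⟨φ, h⟩⟩, rfl⟩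
    have e : g.1.1 =ᵐ[m] fun t => f.1.1 t * ∑ j, c j * b j t := by
      rw [hg, Submodule.coe_sum]
      filter_upwards [Lp.coeFn_finsetSum Finset.univ fun j => ((c j • x j : Hinf) : Linf),
        ae_all_iff.2 hx, ae_all_iff.2 fun j => Lp.coeFn_smul (c j) (x j).1] with t h1 h2 h3
      rw [h1, Finset.sum_apply, Finset.mul_sum]
      exact Finset.sum_congr rfl fun j _ => by
        rw [Submodule.coe_smul, h3, Pi.smul_apply, h2, smul_eq_mul, mul_left_comm]
    have e' : ∀ a : ℂ, (f + a • g).1.1 =ᵐ[m] fun t => f.1.1 t + a * g.1.1 t := fun a => by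
      filter_upwards [Lp.coeFn_add f.1.1 (a • g.1.1), Lp.coeFn_smul a g.1.1] with t h1 h2
      exact h1.trans (by rw [Pi.add_apply, h2]; rfl)
    have p0 : ψ g = 0 := norm_le_zero_iff.1 (le_of_forall_pos_le_add fun η hη => by
      obtain ⟨δ, d1, d2⟩ := a2 η hη
      obtain ⟨ζ, z1, z2⟩ := Complex.exists_norm_eq_mul_self (ψ g)
      have g0 := norm_nonneg g
      obtain ⟨τ, t0, t1⟩ : ∃ τ : ℝ, 0 < τ ∧ τ * (‖g‖ + 1) = δ :=
        ⟨δ / (‖g‖ + 1), by positivity, by field_simp⟩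
      have := (le (f + (τ * ζ) • g)).trans (nle (C := 1 + τ * η) (by positivity) (by
        filter_upwards [e' (τ * ζ), d2, e, hf.2, (bd g.1.1).2] with t k1 k2 k3 k4 k5
        rw [k1]
        refine (norm_add_le _ _).trans ?_
        rw [norm_mul, norm_mul, z1, Complex.norm_of_nonneg t0.le, mul_one]
        by_cases h : 1 - δ < ‖f.1.1 t‖
        · rw [k3, norm_mul]
          gcongr
          exact (mul_le_of_le_one_left (norm_nonneg _) k4).trans (k2 h)
        · have : ‖g.1.1 t‖ ≤ ‖g‖ := k5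
          nlinarith [mul_pos t0 hη]))
      rw [map_add, map_smul, h4, smul_eq_mul, mul_assoc, ← z2] at this
      norm_cast at this
      rw [Real.norm_of_nonneg (by positivity)] at this
      nlinarith)
    have : f + a • g = f := h2.le ⟨nle zero_le_one (by
      filter_upwards [e' a, a1, e] with t k1 k2 k3
      rwa [k1, k3]), by simp [h4, p0]⟩
    have : g = 0 := by simpa [a0] using this
    have : ‖f‖ ≤ max 0 (1 - min δ (1 / 2)) := nle (le_max_left _ _) (by
      filter_upwards [e, d2, Lp.coeFn_zero ℂ ⊤ m] with t k1 k2 k3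
      by_contra! h
      have k4 := (le_max_right _ _).trans_lt h
      rw [this] at k1
      refine mul_ne_zero (norm_pos_iff.1 ((le_max_left _ _).trans_lt h))
        (k2 (by linarith [min_le_left δ (1 / 2)])) (k1.symm.trans k3))
    rw [h5, le_max_iff] at this
    rcases this with h | h <;> linarith [lt_min d1 one_half_pos]
  · rintro ⟨h1, h2⟩
    obtain ⟨E, hE⟩ : ∃ E, E = {t | ‖f.1.1 t‖ = 1} := ⟨_, rfl⟩
    have mE : MeasurableSet E := hE ▸ measurableSet_eq_fun
      (Lp.stronglyMeasurable f.1.1).measurable.norm measurable_const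
    have E0 : m E ≠ 0 := hE ▸ h2.ne'
    have p : 0 < m.real E := ENNReal.toReal_pos E0 (measure_ne_top _ _)
    have hf : Bd f.1.1 1 := (bd f.1.1).mono h1.le
    have i : ∀ y : Linf, IntegrableOn (fun t => y t * conj (f.1.1 t)) E m := fun y =>
      ((bd y).mul (bd_conj hf)).int.integrableOn
    obtain ⟨ψ, p1, p2⟩ : ∃ ψ : StrongDual ℂ Linf, ‖ψ‖ ≤ 1 ∧
        ∀ y, ψ y = (m.real E : ℂ)⁻¹ * ∫ t in E, y t * conj (f.1.1 t) ∂m := by
      refine ⟨LinearMap.mkContinuous ⟨⟨fun y => (m.real E : ℂ)⁻¹ * ∫ t in E, y t * conj (f.1.1 t) ∂m,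
        fun x y => ?_⟩, fun c x => ?_⟩ 1 fun y => ?_, LinearMap.mkContinuous_norm_le _ zero_le_one _,
        fun _ => rfl⟩
      · rw [← mul_add, ← integral_add (i x) (i y)]
        exact congrArg _ (integral_congr_ae (ae_restrict_of_ae ((Lp.coeFn_add x y).mono
          fun t ht => by simp only [ht, Pi.add_apply, add_mul])))
      · simp only [RingHom.id_apply, smul_eq_mul]
        rw [mul_left_comm, ← integral_const_mul c]
        exact congrArg _ (integral_congr_ae (ae_restrict_of_ae ((Lp.coeFn_smul c x).mono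
          fun t ht => by simp only [ht, Pi.smul_apply, smul_eq_mul, mul_assoc])))
      · simp only [LinearMap.coe_mk, AddHom.coe_mk, norm_mul, norm_inv, Complex.norm_of_nonneg p.le]
        rw [inv_mul_le_iff₀ p, mul_comm, mul_comm 1]
        exact norm_setIntegral_le_of_norm_le_const_ae (measure_lt_top _ _)
          (ae_restrict_of_ae ((bd y).mul (bd_conj hf)).2)
    have one : ∀ t ∈ E, f.1.1 t * conj (f.1.1 t) = 1 := fun t ht => by
      rw [hE] at ht
      rw [Complex.mul_conj', show ‖f.1.1 t‖ = 1 from ht]; simp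
    have p3 : ψ f.1.1 = 1 := by
      rw [p2, setIntegral_congr_fun mE one]
      simp [p.ne']
    refine expo Hinf (Ker Φ) p1 h1 p3 fun y y1 y2 => ?_
    have hy : ∀ᵐ t ∂m, ‖y.1.1 t‖ ≤ 1 := (bd y.1.1).2.mono fun t ht => ht.trans y1
    rw [p2, inv_mul_eq_one₀ (by simp [p.ne'])] at y2
    have q1 : Integrable (fun t => (y.1.1 t * conj (f.1.1 t)).re) (m.restrict E) := (i _).re
    have q2 : ∫ t in E, (y.1.1 t * conj (f.1.1 t)).re ∂m = m.real E :=
      (integral_re (i _)).trans (by rw [← y2]; simp)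
    have q3 : Integrable (fun t => 1 - (y.1.1 t * conj (f.1.1 t)).re) (m.restrict E) :=
      Integrable.sub (f := fun _ => (1 : ℝ)) (g := fun t => (y.1.1 t * conj (f.1.1 t)).re)
        (integrable_const 1) q1
    have q4 : ∀ᵐ t ∂m, 0 ≤ 1 - (y.1.1 t * conj (f.1.1 t)).re := by
      filter_upwards [hy, hf.2] with t a b
      refine sub_nonneg.2 ((Complex.re_le_norm _).trans ?_)
      rw [norm_mul, Complex.norm_conj]
      exact mul_le_one₀ a (norm_nonneg _) b
    have q := (setIntegral_eq_zero_iff_of_nonneg_ae (ae_restrict_of_ae (s := E) q4) q3).1 (by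
      rw [integral_sub (integrable_const 1) q1, q2]
      simp)
    have q5 : ∀ᵐ t ∂m, t ∈ E → y.1.1 t - f.1.1 t = 0 := by
      filter_upwards [(ae_restrict_iff' mE).1 q, hy] with t a b c
      exact alg b (one t c) (a c)
    have := uniq (g := fun t => y.1.1 t - f.1.1 t) (HH.sub (hh y.1) (hh f.1)) mE E0 q5
    exact Subtype.ext (Subtype.ext (Lp.ext (this.mono fun t ht => sub_eq_zero.1 ht)))

theorem result : DescIn Hinf Big := main

end Pool.Agent.Results.MP_4ac5ef_an.Yes
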